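import Pool.Agent.ZRT.StmtsB

/-!
# ZRT, row LUN (helper6): uniqueness of lifts through `exp_m`
-/

set_option autoImplicit false

noncomputable section

open scoped ContDiff Topology RealInnerProductSpace
open Set

namespace Pool.Agent.ZRT.H6

open Pool.Agent.RF Pool.Agent.MVS Pool.Agent.ZRT

theorem isOpen_Om5 : IsOpen (Om (Fin 5)) := isOpen_compl_singleton

/-- `exp_m` is smooth -/
theorem cdE {G : E5 → Bil E5} {ex : E5 × E5 → E5} (hE : IsExp G ex) {m : E5}
    (hm : m ∈ Om (Fin 5)) : ContDiff ℝ ∞ (fun u : E5 => ex (m, u)) := by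
  rw [contDiff_iff_contDiffAt]
  intro u
  have hmem : (m, u) ∈ Om (Fin 5) ×ˢ (univ : Set E5) := ⟨hm, mem_univ u⟩
  have h1 : ContDiffAt ℝ ∞ ex (m, u) :=
    (hE.smooth (m, u) hmem).contDiffAt ((isOpen_Om5.prod isOpen_univ).mem_nhds hmem)
  exact h1.comp u (contDiffAt_const.prodMk contDiffAt_id)

/-- `exp_m` is a local homeomorphism at every point where the differential is bijective -/
theorem exists_oph {G : E5 → Bil E5} {ex : E5 × E5 → E5} (hE : IsExp G ex) {m : E5}
    (hm : m ∈ Om (Fin 5)) {v : E5}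
    (hb : Function.Bijective (fderiv ℝ (fun u : E5 => ex (m, u)) v)) :
    ∃ e : OpenPartialHomeomorph E5 E5, v ∈ e.source ∧
      (e : E5 → E5) = fun u : E5 => ex (m, u) := by
  have hk : (fderiv ℝ (fun u : E5 => ex (m, u)) v).ker = ⊥ := LinearMap.ker_eq_bot.2 hb.1
  have hr : (fderiv ℝ (fun u : E5 => ex (m, u)) v).range = ⊤ := LinearMap.range_eq_top.2 hb.2
  have h1 : HasStrictFDerivAt (fun u : E5 => ex (m, u))
      ((ContinuousLinearEquiv.ofBijective (fderiv ℝ (fun u : E5 => ex (m, u)) v) hk hr :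
        E5 ≃L[ℝ] E5) : E5 →L[ℝ] E5) v := by
    rw [ContinuousLinearEquiv.coe_ofBijective]
    exact (cdE hE hm).contDiffAt.hasStrictFDerivAt (by simp)
  exact ⟨h1.toOpenPartialHomeomorph _, h1.mem_toOpenPartialHomeomorph_source,
    h1.toOpenPartialHomeomorph_coe⟩

/-- `exp_m` is locally injective on the open ball of radius `π` -/
theorem locInj (hX : XdeStatement) {G : E5 → Bil E5} {ex : E5 × E5 → E5} (hG : IsCyl G)
    (hS : SecLe G) (hE : IsExp G ex) {m : E5} (hm : m ∈ Om (Fin 5)) :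
    IsLocallyInjective (fun v : {v : E5 // nm G m v < Real.pi} => ex (m, v.1)) := by
  intro v
  obtain ⟨e, he1, he2⟩ := exists_oph hE hm ((hX G ex hG hS hE m hm v.1 v.2).2)
  refine ⟨Subtype.val ⁻¹' e.source, e.open_source.preimage continuous_subtype_val, he1, ?_⟩
  intro a ha b hb hab
  have h1 : e a.1 = e b.1 := by rw [he2]; exact hab
  exact Subtype.ext (e.injOn ha hb h1)

/-- LUN -/
theorem lun (hX : XdeStatement) : LunStatement := by
  intro G ex hG hS hE m hm c y z hy hz hs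
  obtain ⟨s₀, hs₀, hs₁⟩ := hs
  haveI : PreconnectedSpace (Icc (0 : ℝ) 1) := Subtype.preconnectedSpace isPreconnected_Icc
  let g₁ : Icc (0 : ℝ) 1 → {v : E5 // nm G m v < Real.pi} := fun s => ⟨y s.1, hy.lt s.1 s.2⟩
  let g₂ : Icc (0 : ℝ) 1 → {v : E5 // nm G m v < Real.pi} := fun s => ⟨z s.1, hz.lt s.1 s.2⟩
  have c₁ : Continuous g₁ := (continuousOn_iff_continuous_restrict.1 hy.cont).subtype_mk _
  have c₂ : Continuous g₂ := (continuousOn_iff_continuous_restrict.1 hz.cont).subtype_mk _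
  have hc : (fun v : {v : E5 // nm G m v < Real.pi} => ex (m, v.1)) ∘ g₁ =
      (fun v : {v : E5 // nm G m v < Real.pi} => ex (m, v.1)) ∘ g₂ := by
    funext s
    exact (hy.eq s.1 s.2).trans (hz.eq s.1 s.2).symm
  have h := (T2Space.isSeparatedMap (fun v : {v : E5 // nm G m v < Real.pi} => ex (m, v.1))).eq_of_comp_eq
    (locInj hX hG hS hE hm) c₁ c₂ hc ⟨s₀, hs₀⟩ (Subtype.ext hs₁)
  intro s hs
  exact congrArg Subtype.val (congrFun h ⟨s, hs⟩)

end Pool.Agent.ZRT.H6
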